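import Mathlib
import Pool.Agent.Helper32.Schr.Final

/-!
# MP_901471_an, Q1: full answer (yes)

For `N = 2, 3`, `λ > 0` and `0 < β < min μ₁ μ₂` every positive solution of
`-Δu + λu = μ₁u³ + βuv²`, `-Δv + λv = μ₂v³ + βvu²` is a translate of `(√k ω₀, √l ω₀)`.
-/

open Filter Topology InnerProductSpace
open scoped Laplacian

namespace Pool.Agent.Results.MP_901471_an.Uniqueness

/-- `(u, v)` is a positive (classical) solution of the system `(S)` in `ℝ^N`: `u` and `v` are of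
class `C²`, positive, tend to `0` at infinity and satisfy the two equations at every point. -/
structure IsPositiveSolution {N : ℕ} (lam μ₁ μ₂ β : ℝ) (u v : EuclideanSpace ℝ (Fin N) → ℝ) :
    Prop where
  smooth_u : ContDiff ℝ 2 u
  smooth_v : ContDiff ℝ 2 v
  pos_u : ∀ x, 0 < u x
  pos_v : ∀ x, 0 < v x
  lim_u : Tendsto u (cocompact (EuclideanSpace ℝ (Fin N))) (𝓝 0)
  lim_v : Tendsto v (cocompact (EuclideanSpace ℝ (Fin N))) (𝓝 0)
  eq_u : ∀ x, -Δ u x + lam * u x = μ₁ * u x ^ 3 + β * u x * v x ^ 2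
  eq_v : ∀ x, -Δ v x + lam * v x = μ₂ * v x ^ 3 + β * v x * u x ^ 2

/-- `w` is a positive radially symmetric solution of `-Δw + λw = w³` in `ℝ^N`, tending to `0` at
infinity. -/
structure IsGroundState {N : ℕ} (lam : ℝ) (w : EuclideanSpace ℝ (Fin N) → ℝ) : Prop where
  smooth : ContDiff ℝ 2 w
  pos : ∀ x, 0 < w x
  radial : ∀ x y, ‖x‖ = ‖y‖ → w x = w y
  lim : Tendsto w (cocompact (EuclideanSpace ℝ (Fin N))) (𝓝 0)
  eq : ∀ x, -Δ w x + lam * w x = w x ^ 3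

/-- Every positive solution of `(S)` is `(√k w(· - x₀), √l w(· - x₀))` for some point `x₀`, where `w`
is the unique positive radially symmetric solution of `-Δw + λw = w³`. -/
theorem result {N : ℕ} (hN : N = 2 ∨ N = 3) {lam μ₁ μ₂ β : ℝ} (hlam : 0 < lam) (hβ : 0 < β)
    (hβ' : β < min μ₁ μ₂) {u v : EuclideanSpace ℝ (Fin N) → ℝ}
    (h : IsPositiveSolution lam μ₁ μ₂ β u v) :
    ∃ w : EuclideanSpace ℝ (Fin N) → ℝ, IsGroundState lam w ∧
      (∀ w' : EuclideanSpace ℝ (Fin N) → ℝ, IsGroundState lam w' → w' = w) ∧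
      ∃ x₀ : EuclideanSpace ℝ (Fin N), ∀ x,
        u x = Real.sqrt ((μ₂ - β) / (μ₁ * μ₂ - β ^ 2)) * w (x - x₀) ∧
        v x = Real.sqrt ((μ₁ - β) / (μ₁ * μ₂ - β ^ 2)) * w (x - x₀) := by
  have hdim : Module.finrank ℝ (EuclideanSpace ℝ (Fin N)) = 2 ∨
      Module.finrank ℝ (EuclideanSpace ℝ (Fin N)) = 3 := by
    rw [finrank_euclideanSpace_fin]
    exact hN
  have hPS : Pool.Agent.Helper32.Schr.PS lam μ₁ μ₂ β u v :=
    ⟨h.smooth_u, h.smooth_v, h.pos_u, h.pos_v, h.lim_u, h.lim_v,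
      fun x => by rw [h.eq_u]; ring, fun x => by rw [h.eq_v]; ring⟩
  obtain ⟨w, hw, hw', hx⟩ := Pool.Agent.Helper32.Schr.main hdim hlam hβ
    (hβ'.trans_le (min_le_left _ _)) (hβ'.trans_le (min_le_right _ _)) hPS
  exact ⟨w, ⟨hw.smooth, hw.pos, hw.radial, hw.lim, hw.eq⟩,
    fun w' h' => hw' w' ⟨h'.smooth, h'.pos, h'.radial, h'.lim, h'.eq⟩, hx⟩

end Pool.Agent.Results.MP_901471_an.Uniqueness
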